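import Mathlib
import Pool.Agent.H443.NF.Main

/-!
# The logarithms of all conjugates of almost all algebraic integers

Let `K_1, ..., K_k` be number fields (not necessarily distinct) and let `b_j` be a basis of `K_j` over
`ℚ`. For vectors `x_j` of integers put `α_j = ∑ x_ji b_ji ∈ K_j`; if `b_j` is an integral basis these
are the integers of `K_j`. We show that for almost all `(x_1, ..., x_k)` the `[K_1 : ℚ] + ... + [K_k : ℚ]`
logarithms `log σ(α_j)`, where `σ` runs through all the embeddings of `K_j` into `ℂ`, satisfy no nonzero
polynomial relation of total degree at most `D` with algebraic coefficients, not even over arbitrary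
complex numbers `t_1, ..., t_l` which satisfy no such relation themselves. There is no bound for the
heights and the degrees of the coefficients. The determinations of the logarithms are arbitrary with
bounded imaginary parts, and completely arbitrary if `2 π i` is one of the `t_i` (for example `l = 1`,
`t_1 = 2 π i`). The number of exceptional `(x_1, ..., x_k)` with `|x_ji| ≤ N_j` is at most
`ε ∏ (2 N_j + 1) ^ [K_j : ℚ]` if all the `N_j` are at least `N₀`, and `N₀` depends neither on `t_1, ..., t_l`
nor on the ratios of the `N_j`.

For example, for almost all pairs of integers `(x, y)` the numbers `log (x + y √2)`, `log (x - y √2)`,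
`2 π i` satisfy no polynomial relation of degree `≤ D` over the field of algebraic numbers.

Previously known here: the case `K_1 = ... = K_k = ℚ`; one conjugate of each `α_j`, with coefficients in
number fields of bounded degree; all the conjugates, with coefficients of bounded degree and height.

The proof.
* `NF.Cnt`, `NF.Erd`, `NF.Cls`: from the asymptotic formula for the number of ideals we deduce, by the
  argument of Erdős, that the sum of the reciprocals of the norms of the prime ideals diverges; hence, if
  the prime ideals are coloured with finitely many colours, there is a colour such that the prime ideals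
  of degree one of this colour above distinct prime numbers have a divergent sum of reciprocals.
* `NF.Gen`: the prime ideals of a class are of the form `γ J` with a fixed ideal `J`, where all the
  conjugates of `γ` have about the same absolute value (reduction modulo units). The colour consists of the
  class and of the arguments of the conjugates of `γ` up to a small error.
* `NF.Lat`, `NF.Cub`: Turán's inequality and the Cauchy-Schwarz inequality give, in every dense
  set of integers of `K`, multiplicative cubes `a s_1 ... s_R`, `s_i ∈ {γ_i, γ'_i}`, with
  prime ideals above distinct prime numbers.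
* `NF.Val`: the `R [K : ℚ]` numbers `σ(γ'_i / γ_i)` are multiplicatively independent, since a prime ideal of
  degree one with large norm has no prime ideal above it in common with a conjugate (except itself).
* `NF.Den`: along the cube the principal logarithms are additive up to `0, ± 2 π i`, and by the theorem of
  Hales and Jewett this error is constant on a large subcube. By `K3h28.NF` (a theorem on cubes of
  vectors, Baker's theorem, the hyperplane case of the theorem of Waldschmidt and Roy) a cube of this
  kind is never entirely exceptional.
* `NF.Tup`, `NF.Main`: induction on `k`, and the other determinations.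
-/

set_option autoImplicit false

open NumberField

namespace Pool.Agent.Results.MP_60829e_nt.ConjugatesOfAlmostAllIntegers

/-- The complex numbers `x i` satisfy no nonzero polynomial relation of total degree at most `D`
with algebraic coefficients. -/
def IndepUpTo (D : ℕ) {σ : Type} (x : σ → ℂ) : Prop :=
  ∀ P : MvPolynomial σ (algebraicClosure ℚ ℂ), P.totalDegree ≤ D →
    MvPolynomial.aeval x P = 0 → P = 0

open Classical in
/-- **Main result.** (`z.2` runs through the embeddings of the field `K z.1` into `ℂ`.) -/
theorem result (k l D : ℕ) (K : Fin k → Type) [∀ j, Field (K j)] [∀ j, NumberField (K j)]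
    (ι : Fin k → Type) [∀ j, Fintype (ι j)] (b : ∀ j, Module.Basis (ι j) ℚ (K j))
    (C ε : ℝ) (hε : 0 < ε) :
    ∃ N₀ : ℕ, ∀ N : Fin k → ℕ, (∀ j, N₀ ≤ N j) → ∀ t : Fin l → ℂ, IndepUpTo D t →
      (((Fintype.piFinset fun j => Fintype.piFinset fun _ : ι j =>
          Finset.Icc (-(N j : ℤ)) (N j)).filter fun x =>
        (∀ j, x j ≠ 0) ∧ ∃ L : (Σ j : Fin k, (K j →+* ℂ)) → ℂ,
          (∀ z, Complex.exp (L z) = z.2 (∑ i, (x z.1 i : K z.1) * b z.1 i)) ∧
          ((∃ i, t i = 2 * Real.pi * Complex.I) ∨ ∀ z, |(L z).im| ≤ C) ∧
          ¬ IndepUpTo D (Sum.elim t L)).card : ℝ) ≤
      ε * ∏ j, (2 * (N j : ℝ) + 1) ^ Module.finrank ℚ (K j) := by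
  obtain ⟨N₀, hN₀⟩ := Pool.Agent.H443.NF.main k l D K ι b C ε hε
  refine ⟨N₀, fun N hN t ht => ?_⟩
  refine le_trans (Nat.cast_le.2 (Finset.card_le_card ?_)) (hN₀ N hN t ht)
  intro x hx
  exact Pool.Agent.H443.NF.mem_filt.2 (Pool.Agent.H443.NF.mem_filt.1 hx)

end Pool.Agent.Results.MP_60829e_nt.ConjugatesOfAlmostAllIntegers
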