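import Pool.Agent.H443.QU.Cnt

/-!
# Algebraic independence of the logarithms of real quadratic units, for almost all traces
-/

set_option autoImplicit false

open Module

namespace Pool.Agent.Results.MP_60829e_nt.QuadraticUnits

/-- The larger root `(n + √(n² - 4 c)) / 2` of `X² - n X + c`, the real quadratic integer of trace `n` and norm `c`.
For `c = 1` and `c = -1` and all `n`, these are all the real quadratic units `> 1`; for `c = 0` this is the integer `n`. -/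
noncomputable def quad (c : ℤ) (n : ℕ) : ℝ := ((n : ℝ) + √((n : ℝ) ^ 2 - 4 * c)) / 2

/-- `l` is a nonzero rational multiple of `log u` plus a rational multiple of `2 π i`: for integers `m, m' ≠ 0`, `exp (m l) = u ^ m'`.
Examples: every logarithm of `u`, of `-u`, and of every unit of `ℚ(√(n²-4))` which is not a root of unity, for `u = quad 1 n`. -/
def IsLog (u : ℝ) (l : ℂ) : Prop :=
  ∃ m m' : ℤ, m ≠ 0 ∧ m' ≠ 0 ∧ Complex.exp (m * l) = (u : ℂ) ^ m'

/-- For some choice of logarithms, the `k s` numbers `log (quad (c a) (n i))` are related by a nonzero polynomial in `k s` variables, of total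
degree at most `δ`, all of whose coefficients are in `V`. -/
def Dep {s k : ℕ} (c : Fin s → ℤ) (δ : ℕ) (V : Set ℂ) (n : Fin k → ℕ) : Prop :=
  ∃ l : Fin k × Fin s → ℂ, (∀ p, IsLog (quad (c p.2) (n p.1)) (l p)) ∧
    ∃ P : MvPolynomial (Fin k × Fin s) ℂ, P ≠ 0 ∧ P.totalDegree ≤ δ ∧ (∀ m, P.coeff m ∈ V) ∧ MvPolynomial.aeval l P = 0

open Classical in
/-- See the claim file. -/
theorem result {s : ℕ} (c : Fin s → ℤ) (hc : Function.Injective c) (k δ D : ℕ) :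
    ∃ M E : ℕ, ∃ κ > (0 : ℝ), ∃ C : ℝ,
    -- short intervals
    (∀ H t : ℕ, (H + 2) ^ E ≤ t →
      -- coefficients in a `ℚ`-vector space of dimension at most `D`
      (∀ V : Submodule ℚ ℂ, Module.Finite ℚ V → finrank ℚ V ≤ D →
        ∃ S : Finset ℕ, S.card ≤ M ∧ ∀ n : Fin k → ℕ, (∀ i, t ≤ n i ∧ n i ≤ t + H ∧ n i ∉ S) →
          (∀ i j, i ≠ j → (1 + 4 * ∑ a, (c a).natAbs : ℤ) ≤ |(n i : ℤ) - n j|) → ¬ Dep c δ V n) ∧
      -- coefficients in any number field of degree at most `D`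
      (∃ S : Finset ℕ, S.card ≤ M ∧ ∀ n : Fin k → ℕ, (∀ i, t ≤ n i ∧ n i ≤ t + H ∧ n i ∉ S) →
          (∀ i j, i ≠ j → (1 + 4 * ∑ a, (c a).natAbs : ℤ) ≤ |(n i : ℤ) - n j|) →
          ∀ K : IntermediateField ℚ ℂ, FiniteDimensional ℚ K → finrank ℚ K ≤ D → ¬ Dep c δ K n)) ∧
    -- tuples
    (∀ T : ℕ, 1 ≤ T →
      (∀ V : Submodule ℚ ℂ, Module.Finite ℚ V → finrank ℚ V ≤ D →
        (((Fintype.piFinset fun _ : Fin k => Finset.Icc 2 T).filter fun n => Dep c δ V n).card : ℝ) ≤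
          C * (T : ℝ) ^ ((k : ℝ) - κ)) ∧
      (((Fintype.piFinset fun _ : Fin k => Finset.Icc 2 T).filter fun n =>
          ∃ K : IntermediateField ℚ ℂ, FiniteDimensional ℚ K ∧ finrank ℚ K ≤ D ∧ Dep c δ K n).card : ℝ) ≤
          C * (T : ℝ) ^ ((k : ℝ) - κ)) := by
  obtain ⟨M₁, E₁, w₁⟩ := Pool.Agent.H443.QU.windows hc k δ D
  obtain ⟨M₂, E₂, w₂⟩ := Pool.Agent.H443.QU.windows hc k (D * δ) 1
  obtain ⟨κ₁, hκ₁, C₁, hC₁, c₁⟩ := Pool.Agent.H443.QU.tuples hc k δ D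
  obtain ⟨κ₂, hκ₂, C₂, hC₂, c₂⟩ := Pool.Agent.H443.QU.tuples hc k (D * δ) 1
  have h1f : Module.Finite ℚ ↥(1 : Submodule ℚ ℂ) := by
    have h := (Pool.Agent.Y113.finrank_pow_le (⊥ : Submodule ℚ ℂ) 0).1
    rwa [pow_zero] at h
  have h1 := Pool.Agent.H443.QU.finrank_one
  refine ⟨max M₁ M₂, max E₁ E₂, min κ₁ κ₂, lt_min hκ₁ hκ₂, max C₁ C₂, fun H t ht => ⟨fun V hVf hV => ?_, ?_⟩, fun T hT => ⟨fun V hVf hV => ?_, ?_⟩⟩
  · obtain ⟨S, hS, h⟩ := w₁ V hVf hV H t (le_trans (Nat.pow_le_pow_right (by omega) (le_max_left _ _)) ht)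
    exact ⟨S, hS.trans (le_max_left _ _), h⟩
  · obtain ⟨S, hS, h⟩ := w₂ 1 h1f h1 H t (le_trans (Nat.pow_le_pow_right (by omega) (le_max_right _ _)) ht)
    exact ⟨S, hS.trans (le_max_right _ _), fun n hn hsep K _ hK hdep => h n hn hsep (Pool.Agent.H443.QU.dep_nf hK hdep)⟩
  · have hT1 : (1 : ℝ) ≤ T := by exact_mod_cast hT
    refine (c₁ V hVf hV T hT).trans ?_
    refine mul_le_mul (le_max_left _ _) (Real.rpow_le_rpow_of_exponent_le hT1 ?_) (by positivity) (hC₁.trans (le_max_left _ _))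
    linarith [min_le_left κ₁ κ₂]
  · have hT1 : (1 : ℝ) ≤ T := by exact_mod_cast hT
    refine le_trans ?_ ((c₂ 1 h1f h1 T hT).trans ?_)
    · refine Nat.cast_le.2 (Finset.card_le_card fun n hn => ?_)
      obtain ⟨hn1, K, _, hK, hdep⟩ := Finset.mem_filter.1 hn
      exact Finset.mem_filter.2 ⟨hn1, Pool.Agent.H443.QU.dep_nf hK hdep⟩
    · refine mul_le_mul (le_max_right _ _) (Real.rpow_le_rpow_of_exponent_le hT1 ?_) (by positivity) (hC₂.trans (le_max_right _ _))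
      linarith [min_le_right κ₁ κ₂]

end Pool.Agent.Results.MP_60829e_nt.QuadraticUnits
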