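import Mathlib
import Pool.Agent.H594.ML.PolyM

/-!
# Logarithms of the values of polynomials at the elements of finitely generated rings

The question is whether logarithms of algebraic numbers which are linearly independent over `ℚ` are
algebraically independent. Consider relations `x_0 + x_1 l_1 + ⋯ + x_k l_k = y_1 λ_1 + ⋯ + y_m λ_m`,
where the coefficients `x_j`, `y_i` are in a fixed space `X` of complex numbers of finite dimension
over the field of algebraic numbers, for instance the values at given numbers `t_1, ..., t_n` (such as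
other logarithms) of all polynomials with algebraic coefficients of bounded degree, the `l_j` are
logarithms of algebraic numbers, and the `λ_i` are arbitrary linear forms in logarithms. If the
question has a positive answer, then all `x_j` are combinations of `y_1, ..., y_m`, as soon as the
`l_j` are independent of the logarithms which occur in `X`.

We prove this for the logarithms `l_j` of `f_j(z)` for all but finitely many elements `z` of any
finitely generated ring of algebraic numbers, provided that all products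
`f_1 ^ m_1 ⋯ f_k ^ m_k` with integral exponents, not all zero, have at least two zeros or poles, or
one which is not in the field generated by the ring. For example for all large `N` the numbers
`log (N ^ 2 + 1), ..., log (N ^ 2 + k)` have this property.

The proof: by the hyperplane case of the linear subgroup theorem (starting files
`Pool.Agent.W254.HP`) all relations `∑ x_i a_i = 0`, `x_i` a basis of `X`, between linear forms
`a_i` in logarithms have their entries in one space of finite dimension. With Baker's theorem this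
yields part (1): there is a finite set `B` of logarithms such that `x_j` is a combination of the `y_i`
unless `l_j` is a rational combination of the elements of `B` and of the other `l_i`. So one has to
consider the `z` for which a product of powers of the numbers `f_j(z)` is in a given finitely
generated group. If this product has at least two different linear factors, or one which is not
defined over the field (to which we apply a Galois automorphism), then `z` comes from a solution of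
a unit equation, for a set of places which depends neither on `z` nor on the exponents
(`Pool.Agent.H594.ML.multi_finite`).
-/

set_option autoImplicit false

namespace Pool.Agent.Results.MP_60829e_nt.ValuesOverRings

open Pool.Agent.H594.ML

/-- The linear combinations, with algebraic coefficients, of `1` and of logarithms of algebraic
numbers. -/
noncomputable def LogForms : Submodule (algebraicClosure ℚ ℂ) ℂ :=
  Submodule.span (algebraicClosure ℚ ℂ) ({1} ∪ {z : ℂ | IsAlgebraic ℚ (Complex.exp z)})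

/-- If `x_0 + x_1 l_1 + ⋯ + x_k l_k` with `x_0, ..., x_k` in `X` is a sum of products `y λ` with `y`
in a subspace `Y` of `X` and with `λ` in `LogForms`, then `x_1, ..., x_k` are in `Y`. -/
def FreeOver (X : Submodule (algebraicClosure ℚ ℂ) ℂ) {k : ℕ} (l : Fin k → ℂ) : Prop :=
  ∀ Y ≤ X, ∀ x₀ ∈ X, ∀ x : Fin k → ℂ, (∀ j, x j ∈ X) → x₀ + ∑ j, x j * l j ∈ Y * LogForms →
    ∀ j, x j ∈ Y

/-- Every product of powers of the polynomials `f_j` with integral exponents, not all zero, has a
zero or pole outside of the field `K`, or at least two different zeros or poles in the complex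
numbers. -/
def TwoZeros (K : IntermediateField ℚ ℂ) {k : ℕ} (f : Fin k → Polynomial ℂ) : Prop :=
  ∀ m : Fin k → ℤ, m ≠ 0 → ∃ a : ℂ, ∑ j, m j * ((f j).rootMultiplicity a : ℤ) ≠ 0 ∧
    (a ∉ K ∨ ∃ b : ℂ, b ≠ a ∧ ∑ j, m j * ((f j).rootMultiplicity b : ℤ) ≠ 0)

theorem two_ne {K : IntermediateField ℚ ℂ} {k : ℕ} {f : Fin k → Polynomial ℂ} (h : TwoZeros K f)
    (j : Fin k) : f j ≠ 0 := by
  intro h0
  obtain ⟨a, ha, -⟩ := h (Pi.single j 1) (by
    intro h1
    have := congrFun h1 j
    simp at this)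
  apply ha
  rw [Finset.sum_eq_single j]
  · rw [h0]
    simp
  · intro i _ hij
    rw [Pi.single_eq_of_ne hij, zero_mul]
  · intro h1
    exact absurd (Finset.mem_univ j) h1

/-- a rational functional which vanishes on `Y` -/
theorem exists_g (Y : Submodule (algebraicClosure ℚ ℂ) ℂ) {x : ℂ} (hx : x ∉ Y) :
    ∃ g : ℂ →ₗ[ℚ] ℚ, (∀ y ∈ Y, g y = 0) ∧ g x ≠ 0 := by
  obtain ⟨g, hg1, hg2⟩ := Submodule.exists_le_ker_of_notMem
    (show x ∉ (Y.restrictScalars ℚ) from hx)
  exact ⟨g, fun y hy => hg2 hy, hg1⟩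

theorem two_free {K : IntermediateField ℚ ℂ} {k : ℕ} {f : Fin k → Polynomial ℂ}
    (h : TwoZeros K f) (Y : Submodule (algebraicClosure ℚ ℂ) ℂ) (a₀ : ℂ) (ha₀ : a₀ ∈ K)
    (x : Fin k → ℂ)
    (hx : ∀ a ≠ a₀, ∑ j, ((f j).rootMultiplicity a : ℂ) * x j ∈ Y) (i : Fin k) : x i ∈ Y := by
  classical
  by_contra hi
  obtain ⟨g, hg, hgi⟩ := exists_g Y hi
  -- common denominator
  let N : ℕ := ∏ j, (g (x j)).den
  have hN : N ≠ 0 := Finset.prod_ne_zero_iff.2 fun j _ => (g (x j)).den_ne_zero
  have hint : ∀ j, ∃ m : ℤ, (m : ℚ) = N * g (x j) := by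
    intro j
    obtain ⟨c, hc⟩ : (g (x j)).den ∣ N := Finset.dvd_prod_of_mem _ (Finset.mem_univ j)
    refine ⟨c * (g (x j)).num, ?_⟩
    rw [hc]
    push_cast
    have h1 := Rat.mul_den_eq_num (g (x j))
    rw [← h1]
    ring
  choose m hm using hint
  obtain ⟨a, ha, hab⟩ := h m (by
    intro h0
    have h1 := hm i
    rw [h0] at h1
    rw [Pi.zero_apply, Int.cast_zero] at h1
    exact (mul_ne_zero (Nat.cast_ne_zero.2 hN) hgi) h1.symm)
  have hzero : ∀ c ≠ a₀, ∑ j, m j * ((f j).rootMultiplicity c : ℤ) = 0 := by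
    intro c hc
    have h1 := hg _ (hx c hc)
    rw [map_sum] at h1
    have h2 : ∀ j, g (((f j).rootMultiplicity c : ℂ) * x j) =
        ((f j).rootMultiplicity c : ℚ) * g (x j) := by
      intro j
      rw [← nsmul_eq_mul, map_nsmul, nsmul_eq_mul]
    simp only [h2] at h1
    have h3 : ((∑ j, m j * ((f j).rootMultiplicity c : ℤ) : ℤ) : ℚ) = 0 := by
      push_cast
      have h4 : ∀ j, (m j : ℚ) * ((f j).rootMultiplicity c : ℚ) =
          N * (((f j).rootMultiplicity c : ℚ) * g (x j)) := by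
        intro j
        rw [hm]
        ring
      simp only [h4]
      rw [← Finset.mul_sum, h1, mul_zero]
    exact_mod_cast h3
  by_cases h1 : a = a₀
  · rcases hab with hab | ⟨b, hab, hb⟩
    · exact hab (by rw [h1]; exact ha₀)
    · exact hb (hzero b (by rw [← h1]; exact hab))
  · exact ha (hzero a h1)

theorem zeros_finite {k : ℕ} (f : Fin k → Polynomial ℂ) (h0 : ∀ j, f j ≠ 0) :
    {z : ℂ | ¬ ∀ j, (f j).eval z ≠ 0}.Finite := by
  have h1 : (⋃ j, {z : ℂ | (f j).eval z = 0}).Finite := by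
    refine Set.finite_iUnion fun j => ?_
    have h2 := Polynomial.rootSet_finite (f j) ℂ
    refine h2.subset ?_
    intro z hz
    rw [Polynomial.mem_rootSet]
    refine ⟨h0 j, ?_⟩
    rw [Polynomial.coe_aeval_eq_eval]
    exact hz
  refine h1.subset ?_
  intro z hz
  have hz' : ¬ ∀ j, (f j).eval z ≠ 0 := hz
  push Not at hz'
  obtain ⟨j, hj⟩ := hz'
  exact Set.mem_iUnion.2 ⟨j, hj⟩

theorem values_free (X : Submodule (algebraicClosure ℚ ℂ) ℂ) (hX : X.FG) (T : Finset ℂ)
    (hT : ∀ x ∈ T, IsAlgebraic ℚ x) {k : ℕ} (f : Fin k → Polynomial ℂ)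
    (hf : ∀ j i, IsAlgebraic ℚ ((f j).coeff i))
    (h2 : TwoZeros (IntermediateField.adjoin ℚ (T : Set ℂ)) f) :
    {z : ℂ | z ∈ Subring.closure (T : Set ℂ) ∧ ¬ ((∀ j, (f j).eval z ≠ 0) ∧ ∀ l : Fin k → ℂ,
      (∀ j, Complex.exp (l j) = (f j).eval z) → FreeOver X l)}.Finite := by
  refine ((poly_main X hX T hT f (two_ne h2) hf).union (zeros_finite f (two_ne h2))).subset ?_
  rintro z ⟨hz, hno⟩
  by_contra hzF
  rw [Set.mem_union, not_or] at hzF
  obtain ⟨h3, h4⟩ := hzF
  have h4' : ∀ j, (f j).eval z ≠ 0 := by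
    by_contra h5
    exact h4 h5
  have h3' : ∃ a₀ ∈ IntermediateField.adjoin ℚ (T : Set ℂ), ∀ l : Fin k → ℂ,
      (∀ j, Complex.exp (l j) = (f j).eval z) → ∀ Y ≤ X, ∀ x₀ ∈ X, ∀ x : Fin k → ℂ,
      (∀ j, x j ∈ X) → x₀ + ∑ j, x j * l j ∈ Y * Pool.Agent.H301R2.SSE.Lt →
      ∀ a ≠ a₀, ∑ j, ((f j).rootMultiplicity a : ℂ) * x j ∈ Y := by
    by_contra h5
    exact h3 ⟨hz, h5⟩
  obtain ⟨a₀, haK, ha₀⟩ := h3'
  exact hno ⟨h4', fun l hl Y hY x₀ hx₀ x hx hrel i =>
    two_free h2 Y a₀ haK x (ha₀ l hl Y hY x₀ hx₀ x hx hrel) i⟩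

/-- families in which every member has two zeros which are not zeros of the others -/
theorem two_of_private (K : IntermediateField ℚ ℂ) {k : ℕ} (f : Fin k → Polynomial ℂ)
    (a b : Fin k → ℂ) (hab : ∀ j, a j ≠ b j)
    (ha : ∀ i j, (f i).rootMultiplicity (a j) ≠ 0 ↔ i = j)
    (hb : ∀ i j, (f i).rootMultiplicity (b j) ≠ 0 ↔ i = j) : TwoZeros K f := by
  intro m hm
  obtain ⟨j, hj⟩ : ∃ j, m j ≠ 0 := by
    by_contra h
    push Not at h
    exact hm (funext h)
  have key : ∀ c : ℂ, (∀ i, (f i).rootMultiplicity c ≠ 0 ↔ i = j) →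
      ∑ i, m i * ((f i).rootMultiplicity c : ℤ) ≠ 0 := by
    intro c hc
    rw [Finset.sum_eq_single j]
    · exact mul_ne_zero hj (Int.natCast_ne_zero.2 ((hc j).2 rfl))
    · intro i _ hij
      have h1 : (f i).rootMultiplicity c = 0 := by
        by_contra h
        exact hij ((hc i).1 h)
      rw [h1]
      simp
    · intro h
      exact absurd (Finset.mem_univ j) h
  exact ⟨a j, key _ fun i => ha i j, Or.inr ⟨b j, (hab j).symm, key _ fun i => hb i j⟩⟩

/-- the polynomials `X ^ 2 + j + 1` -/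
theorem two_squares (K : IntermediateField ℚ ℂ) (k : ℕ) :
    TwoZeros K (fun j : Fin k => (Polynomial.X ^ 2 + Polynomial.C ((j : ℂ) + 1) : Polynomial ℂ)) := by
  have hsq : ∀ j : Fin k, (Complex.I * ((Real.sqrt ((j : ℝ) + 1) : ℝ) : ℂ)) ^ 2 =
      - ((j : ℂ) + 1) := by
    intro j
    rw [mul_pow, Complex.I_sq, ← Complex.ofReal_pow, Real.sq_sqrt (by positivity)]
    push_cast
    ring
  have hne : ∀ j : Fin k, (Complex.I * ((Real.sqrt ((j : ℝ) + 1) : ℝ) : ℂ)) ≠ 0 := by
    intro j h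
    have h1 := hsq j
    rw [h] at h1
    have h2 : ((j : ℂ) + 1) = 0 := by
      rw [← neg_eq_zero, ← h1]
      norm_num
    have h3 : (((j : ℕ) + 1 : ℕ) : ℂ) = 0 := by
      push_cast
      exact h2
    exact absurd (Nat.cast_eq_zero.1 h3) (by omega)
  have hmult : ∀ (c : ℂ) (i j : Fin k), c ^ 2 = - ((j : ℂ) + 1) →
      ((Polynomial.X ^ 2 + Polynomial.C ((i : ℂ) + 1) : Polynomial ℂ).rootMultiplicity c ≠ 0 ↔
        i = j) := by
    intro c i j hc
    have h0 : (Polynomial.X ^ 2 + Polynomial.C ((i : ℂ) + 1) : Polynomial ℂ) ≠ 0 :=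
      Polynomial.X_pow_add_C_ne_zero (by norm_num) _
    rw [Ne, Polynomial.rootMultiplicity_eq_zero_iff]
    constructor
    · intro h
      push Not at h
      have h1 : c ^ 2 + ((i : ℂ) + 1) = 0 := by
        have h2 := h.1
        simpa [Polynomial.IsRoot] using h2
      rw [hc] at h1
      have h2 : ((i : ℕ) : ℂ) = ((j : ℕ) : ℂ) := by linear_combination h1
      exact Fin.ext (Nat.cast_injective h2)
    · rintro rfl
      push Not
      refine ⟨?_, h0⟩
      simp [Polynomial.IsRoot, hc]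
  refine two_of_private K _ (fun j => Complex.I * ((Real.sqrt ((j : ℝ) + 1) : ℝ) : ℂ))
    (fun j => - (Complex.I * ((Real.sqrt ((j : ℝ) + 1) : ℝ) : ℂ))) (fun j h => ?_)
    (fun i j => hmult _ i j (hsq j)) (fun i j => hmult _ i j (by rw [neg_sq, hsq j]))
  have h1 : (2 : ℂ) * (Complex.I * ((Real.sqrt ((j : ℝ) + 1) : ℝ) : ℂ)) = 0 := by
    linear_combination h
  exact hne j ((mul_eq_zero.1 h1).resolve_left two_ne_zero)

theorem nat_eventually {S : Set ℂ} {P : ℕ → Prop}
    (hS : {z : ℂ | z ∈ Subring.closure (((∅ : Finset ℂ)) : Set ℂ) ∧ z ∈ S}.Finite)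
    (h : ∀ N : ℕ, ¬ P N → (N : ℂ) ∈ S) : ∀ᶠ N in Filter.atTop, P N := by
  have h1 : {N : ℕ | ¬ P N}.Finite := by
    refine Set.Finite.of_finite_image (hS.subset ?_) (f := fun N : ℕ => (N : ℂ))
      (fun a _ b _ hab => Nat.cast_injective hab)
    rintro _ ⟨N, hN, rfl⟩
    exact ⟨natCast_mem _ N, h N hN⟩
  have h2 := h1.eventually_cofinite_notMem
  rw [Nat.cofinite_eq_atTop] at h2
  filter_upwards [h2] with N hN
  by_contra h3
  exact hN h3

/-- **Main result.** -/
theorem result :
    -- (1) relations with coefficients in a space of finite dimension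
    (∀ X : Submodule (algebraicClosure ℚ ℂ) ℂ, X.FG →
      ∃ B : Finset ℂ, (∀ b ∈ B, IsAlgebraic ℚ (Complex.exp b)) ∧
        ∀ (k : ℕ) (l : Fin k → ℂ), (∀ j, IsAlgebraic ℚ (Complex.exp (l j))) →
          ∀ Y ≤ X, ∀ x₀ ∈ X, ∀ x : Fin k → ℂ, (∀ j, x j ∈ X) →
            x₀ + ∑ j, x j * l j ∈ Y * LogForms →
            ∀ j, l j ∈ Submodule.span ℚ ((B : Set ℂ) ∪ l '' {i | i ≠ j}) ∨ x j ∈ Y) ∧
    -- (2) logarithms of the values of arbitrary polynomials
    (∀ X : Submodule (algebraicClosure ℚ ℂ) ℂ, X.FG → ∀ T : Finset ℂ,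
      (∀ x ∈ T, IsAlgebraic ℚ x) → ∀ (k : ℕ) (f : Fin k → Polynomial ℂ), (∀ j, f j ≠ 0) →
      (∀ j i, IsAlgebraic ℚ ((f j).coeff i)) →
      {z : ℂ | z ∈ Subring.closure (T : Set ℂ) ∧ ¬ ∃ a₀ ∈ IntermediateField.adjoin ℚ (T : Set ℂ),
        ∀ l : Fin k → ℂ, (∀ j, Complex.exp (l j) = (f j).eval z) → ∀ Y ≤ X, ∀ x₀ ∈ X,
        ∀ x : Fin k → ℂ, (∀ j, x j ∈ X) → x₀ + ∑ j, x j * l j ∈ Y * LogForms →
        ∀ a ≠ a₀, ∑ j, ((f j).rootMultiplicity a : ℂ) * x j ∈ Y}.Finite) ∧
    -- (3) independent polynomials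
    (∀ X : Submodule (algebraicClosure ℚ ℂ) ℂ, X.FG → ∀ T : Finset ℂ,
      (∀ x ∈ T, IsAlgebraic ℚ x) → ∀ (k : ℕ) (f : Fin k → Polynomial ℂ),
      (∀ j i, IsAlgebraic ℚ ((f j).coeff i)) →
      TwoZeros (IntermediateField.adjoin ℚ (T : Set ℂ)) f →
      {z : ℂ | z ∈ Subring.closure (T : Set ℂ) ∧ ¬ ((∀ j, (f j).eval z ≠ 0) ∧
        ∀ l : Fin k → ℂ, (∀ j, Complex.exp (l j) = (f j).eval z) → FreeOver X l)}.Finite) ∧
    -- (4) coefficients which are polynomials of bounded degree in given numbers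
    (∀ (n : ℕ) (t : Fin n → ℂ) (D : ℕ) (T : Finset ℂ), (∀ x ∈ T, IsAlgebraic ℚ x) →
      ∀ (k : ℕ) (f : Fin k → Polynomial ℂ), (∀ j i, IsAlgebraic ℚ ((f j).coeff i)) →
      TwoZeros (IntermediateField.adjoin ℚ (T : Set ℂ)) f →
      {z : ℂ | z ∈ Subring.closure (T : Set ℂ) ∧ ¬ ∀ l : Fin k → ℂ,
        (∀ j, Complex.exp (l j) = (f j).eval z) →
        ∀ (P₀ Q : MvPolynomial (Fin n) (algebraicClosure ℚ ℂ))
          (P : Fin k → MvPolynomial (Fin n) (algebraicClosure ℚ ℂ)),
          (∀ i, P₀.degreeOf i ≤ D) → (∀ i, Q.degreeOf i ≤ D) → (∀ j i, (P j).degreeOf i ≤ D) →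
          ∀ lam ∈ LogForms, MvPolynomial.aeval t P₀ + ∑ j, MvPolynomial.aeval t (P j) * l j =
            MvPolynomial.aeval t Q * lam →
          ∀ j, ∃ c : algebraicClosure ℚ ℂ,
            MvPolynomial.aeval t (P j) = (c : ℂ) * MvPolynomial.aeval t Q}.Finite) ∧
    -- (5) an example
    (∀ X : Submodule (algebraicClosure ℚ ℂ) ℂ, X.FG → ∀ k : ℕ, ∀ᶠ N : ℕ in Filter.atTop,
      FreeOver X (fun j : Fin k => ((Real.log ((N : ℝ) ^ 2 + ((j : ℝ) + 1)) : ℝ) : ℂ))) ∧
    -- (6) consecutive integers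
    (∀ X : Submodule (algebraicClosure ℚ ℂ) ℂ, X.FG → ∀ k : ℕ, ∀ᶠ N : ℕ in Filter.atTop,
      ∃ i : ℕ, ∀ Y ≤ X, ∀ x₀ ∈ X, ∀ x : Fin k → ℂ, (∀ j, x j ∈ X) →
        x₀ + ∑ j, x j * ((Real.log ((N : ℝ) + ((j : ℝ) + 1)) : ℝ) : ℂ) ∈ Y * LogForms →
        ∀ j : Fin k, (j : ℕ) ≠ i → x j ∈ Y) := by
  classical
  refine ⟨fun X hX => ?_, fun X hX T hT k f h0 hf => poly_main X hX T hT f h0 hf,
    fun X hX T hT k f hf h2 => values_free X hX T hT f hf h2,
    fun n t D T hT k f hf h2 => ?_, fun X hX k => ?_, fun X hX k => ?_⟩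
  · obtain ⟨B, hB1, hB2⟩ := struct X hX
    refine ⟨B, hB1, fun k l hl Y hY x₀ hx₀ x hx hrel j => ?_⟩
    by_cases hj : l j ∈ Submodule.span ℚ ((B : Set ℂ) ∪ l '' {i | i ≠ j})
    · exact Or.inl hj
    · exact Or.inr (hB2 (Fin k) l hl Y hY x₀ hx₀ x hx hrel j hj)
  · have hXfg : (Pool.Agent.W254.HP.boxV t (D + 1)).FG :=
      Submodule.fg_span (Set.finite_range _)
    refine (values_free _ hXfg T hT f hf h2).subset ?_
    rintro z ⟨hz, hno⟩
    refine ⟨hz, fun hfree => hno ?_⟩
    intro l hl P₀ Q P hP₀ hQ hP lam hlam he j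
    have hY : Submodule.span (algebraicClosure ℚ ℂ) {MvPolynomial.aeval t Q} ≤
        Pool.Agent.W254.HP.boxV t (D + 1) := by
      rw [Submodule.span_singleton_le_iff_mem]
      exact Pool.Agent.HP778.aeval_mem_box t D Q hQ
    have h1 := hfree.2 l hl _ hY (MvPolynomial.aeval t P₀)
      (Pool.Agent.HP778.aeval_mem_box t D P₀ hP₀) (fun j => MvPolynomial.aeval t (P j))
      (fun j => Pool.Agent.HP778.aeval_mem_box t D (P j) (hP j)) (by
        rw [he]
        exact Submodule.mul_mem_mul (Submodule.mem_span_singleton_self _) hlam) j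
    obtain ⟨c, hc⟩ := Submodule.mem_span_singleton.1 h1
    refine ⟨c, ?_⟩
    rw [← hc, qsmul]
  · have h1 := values_free X hX ∅ (by simp)
      (fun j : Fin k => (Polynomial.X ^ 2 + Polynomial.C ((j : ℂ) + 1) : Polynomial ℂ)) (by
        intro j i
        rw [Polynomial.coeff_add, Polynomial.coeff_X_pow, Polynomial.coeff_C]
        refine IsAlgebraic.add ?_ ?_
        · split_ifs
          · exact isAlgebraic_one
          · exact isAlgebraic_zero
        · split_ifs
          · exact (isAlgebraic_natCast (R := ℚ) (A := ℂ) (j : ℕ)).add isAlgebraic_one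
          · exact isAlgebraic_zero) (two_squares _ k)
    refine nat_eventually h1 fun N hN hall => hN (hall.2 _ fun j => ?_)
    rw [← Complex.ofReal_exp, Real.exp_log (by positivity)]
    simp
  · have h1 := poly_main X hX ∅ (by simp)
      (fun j : Fin k => (Polynomial.X + Polynomial.C ((j : ℂ) + 1) : Polynomial ℂ))
      (fun j => Polynomial.X_add_C_ne_zero _) (by
        intro j i
        rw [Polynomial.coeff_add, Polynomial.coeff_X, Polynomial.coeff_C]
        refine IsAlgebraic.add ?_ ?_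
        · split_ifs
          · exact isAlgebraic_one
          · exact isAlgebraic_zero
        · split_ifs
          · exact (isAlgebraic_natCast (R := ℚ) (A := ℂ) (j : ℕ)).add isAlgebraic_one
          · exact isAlgebraic_zero)
    refine nat_eventually h1 fun N hN hall => hN ?_
    obtain ⟨a₀, -, ha₀⟩ := hall
    have hmult : ∀ i j : Fin k, ((Polynomial.X + Polynomial.C ((i : ℂ) + 1) :
        Polynomial ℂ).rootMultiplicity (- ((j : ℂ) + 1)) : ℂ) = if i = j then 1 else 0 := by
      intro i j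
      have e1 : (Polynomial.X + Polynomial.C ((i : ℂ) + 1) : Polynomial ℂ) =
          Polynomial.X - Polynomial.C (- ((i : ℂ) + 1)) := by
        rw [Polynomial.C_neg, sub_neg_eq_add]
      rw [e1, Polynomial.rootMultiplicity_X_sub_C]
      by_cases hij : i = j
      · subst hij
        simp
      · rw [if_neg, if_neg hij, Nat.cast_zero]
        intro h
        apply hij
        have h2 : ((i : ℕ) : ℂ) = ((j : ℕ) : ℂ) := by linear_combination h
        exact Fin.ext (Nat.cast_injective h2)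
    have hlog : ∀ j : Fin k, Complex.exp
        ((Real.log ((N : ℝ) + ((j : ℝ) + 1)) : ℝ) : ℂ) =
        (Polynomial.X + Polynomial.C ((j : ℂ) + 1) : Polynomial ℂ).eval (N : ℂ) := by
      intro j
      rw [← Complex.ofReal_exp, Real.exp_log (by positivity)]
      simp
    have hmain : ∀ Y ≤ X, ∀ x₀ ∈ X, ∀ x : Fin k → ℂ, (∀ j, x j ∈ X) →
        x₀ + ∑ j, x j * ((Real.log ((N : ℝ) + ((j : ℝ) + 1)) : ℝ) : ℂ) ∈ Y * LogForms →
        ∀ j : Fin k, - ((j : ℂ) + 1) ≠ a₀ → x j ∈ Y := by
      intro Y hY x₀ hx₀ x hx hrel j hj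
      have h2 := ha₀ _ hlog Y hY x₀ hx₀ x hx hrel _ hj
      simp only [hmult] at h2
      rw [Finset.sum_eq_single j] at h2
      · simpa using h2
      · intro i _ hij
        rw [if_neg hij, zero_mul]
      · intro h
        exact absurd (Finset.mem_univ j) h
    by_cases hex : ∃ i : Fin k, - ((i : ℂ) + 1) = a₀
    · obtain ⟨i, hi⟩ := hex
      refine ⟨i, fun Y hY x₀ hx₀ x hx hrel j hj => hmain Y hY x₀ hx₀ x hx hrel j ?_⟩
      intro h
      apply hj
      rw [← hi] at h
      have h2 : ((j : ℕ) : ℂ) = ((i : ℕ) : ℂ) := by linear_combination -h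
      exact Nat.cast_injective h2
    · push Not at hex
      exact ⟨0, fun Y hY x₀ hx₀ x hx hrel j _ => hmain Y hY x₀ hx₀ x hx hrel j (hex j)⟩

end Pool.Agent.Results.MP_60829e_nt.ValuesOverRings
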