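import Pool.Agent.H443.VD.Fu

/-!
# The linear subgroup theorem for algebraic varieties, with uniform bounds

Let `k = ℚ` or `k = ℚ̄` (the field of algebraic numbers), and let `L` be the space of all linear combinations, with
coefficients in `k`, of `1` and of logarithms of algebraic numbers. For a linear subspace `V` of `ℂ ^ m` of dimension `d`
which contains no nonzero point with coordinates in `k` the linear subgroup theorem (Waldschmidt, Roy) says that
`V ∩ L ^ m` has dimension at most `d (d + 1)` over `k`. Here `V` is an arbitrary algebraic subset of `ℂ ^ m` (arbitrary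
complex coefficients, arbitrary degree, reducible or not) of dimension at most `d`. If linearly independent logarithms
are algebraically independent and `V` is defined over the algebraic numbers, then `y ∈ L ^ m` is in `V` only if `V`
contains a translate `y + R_ℂ` of a linear space `R` defined over `k` through an algebraic point. We prove, with
`n = d (d + 1) + ρ max (N - d - 1, 0)` (so `n = ρ N + (d - ρ) (d + 1)` for `N > d`, and `n = d (d + 1)` for `ρ = 0`, as
for linear spaces):

* Dimension. Let `W ⊆ L` be a space of dimension `N` over `k`. The points `y` of `V ∩ W ^ m` such that `V` contains no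
  translate `y + R_ℂ` of a linear space `R` over `k` of dimension greater than `ρ` lie in an algebraic subset of `W ^ m`
  of dimension at most `n`.
* Counting. Let `l_1, ..., l_N ∈ L` be linearly independent over `k`. For every finite subset `S` of `k` there are at
  most `B |S| ^ n` matrices `A` with entries in `S` such that the point `A l` is in `V`, but no translate `A l + R_ℂ` of
  a space `R` of dimension greater than `ρ` is contained in `V`.
* Uniformity. The constant `B`, and the degrees of the polynomials which define the algebraic subset of `W ^ m`, depend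
  only on `m`, `N`, `d`, `ρ` and on the degrees `δ` of the equations of `V`, but neither on the coefficients of the
  equations nor on the space `W` or the numbers `l_j`.
* Growth. Let `k = ℚ`, and let `ρ` be the greatest dimension of a rational linear space `R` such that `V` contains
  `A₀ l + R_ℂ` for some integer matrix `A₀`. The number of the integer matrices `A` with entries of absolute value at
  most `H` and `A l ∈ V` is at least `H ^ (ρ N) / κ` and at most `κ H ^ n`.

The library result `ExpectedExponent` has the exponent `ρ N + (m - ρ) (m - 1)`, depending on the dimension `m` of the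
ambient space instead of the dimension `d` of `V` (for hypersurfaces, `d = m - 1`, the new exponent is smaller by `ρ`),
and constants which depend on `V` and on the `l_j`.

Proof (`Pool.Agent.H443.VD`). `Lst`, `Rk`: the case of hyperplanes of the linear subgroup theorem implies the case of
subspaces of dimension `d`, over any field with this property, in particular over germs. `Tg`: at a generic point `y`
of a family of points of `V` the tangent space of the ideal of `y` has dimension at most `d`. `St`: let `Θ` be this
tangent space (of dimension `θ`) and `R'` the space of its rational points (of dimension `r`). The derivations which move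
`y` transversally to `R'` contribute at most `(θ - r) (θ - r + 1)` by the linear subgroup theorem. The derivations which
move `R'` satisfy `D c + II (D y, c) ∈ Θ` for `c ∈ R'`, where `II` is the second fundamental form; moving the vectors of a
basis one after the other they contribute at most `r (θ - r) + (r - θ')`, `θ'` being the dimension of the tangent space
of the equations together with their derivatives along `R'`. In all at most `(θ - θ') (d + 1)`. `Ab`: the sum over the
steps telescopes, and `V` contains the translate of the last space `R'`. `Un`: the theorem is true for all fields with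
the hyperplane property, which is inherited by ultraproducts; this gives the uniformity.
-/

set_option autoImplicit false

namespace Pool.Agent.Results.MP_60829e_nt.VarietiesOfGivenDimension

open MvPolynomial

/-- The space of all linear combinations, with coefficients in `k`, of `1` and of logarithms of algebraic numbers. -/
noncomputable def LogForms (k : Type) [Field k] [Algebra k ℂ] : Submodule k ℂ :=
  Submodule.span k ({1} ∪ {z : ℂ | IsAlgebraic ℚ (Complex.exp z)})

/-- `V` is an algebraic set of dimension at most `d` and of complexity at most `δ`: it is defined by polynomials of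
degree at most `δ`, and any `d + 1` coordinates satisfy a nonzero polynomial relation of degree at most `δ` on `V`. -/
def IsVariety {m : ℕ} (d δ : ℕ) (V : Set (Fin m → ℂ)) : Prop :=
  (∃ 𝓕 : Set (MvPolynomial (Fin m) ℂ), (∀ F ∈ 𝓕, F.totalDegree ≤ δ) ∧ V = {z | ∀ F ∈ 𝓕, eval z F = 0}) ∧
  ∀ e : Fin (d + 1) → Fin m, ∃ P : MvPolynomial (Fin (d + 1)) ℂ, P ≠ 0 ∧ P.totalDegree ≤ δ ∧
    ∀ z ∈ V, eval (fun a => z (e a)) P = 0

/-- `V` contains the translate `y + R_ℂ` of the complex span of the space `R` defined over `k`. -/
def ContainsTranslate (k : Type) [Field k] [Algebra k ℂ] {m : ℕ} (V : Set (Fin m → ℂ)) (y : Fin m → ℂ)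
    (R : Submodule k (Fin m → k)) : Prop :=
  ∀ c ∈ Submodule.span ℂ {x : Fin m → ℂ | ∃ v ∈ R, x = fun i => algebraMap k ℂ (v i)}, y + c ∈ V

/-- The set `Z` of `m`-tuples of elements of `W` lies in an algebraic subset of dimension at most `n`: any `n + 1`
linear forms satisfy a nonzero polynomial relation, of degree at most `B`, on `Z`. -/
def DimensionAtMost {k : Type} [Field k] [Algebra k ℂ] (W : Submodule k ℂ) {m : ℕ} (n B : ℕ)
    (Z : Set (Fin m → W)) : Prop :=
  ∀ φ : Fin (n + 1) → ((Fin m → W) →ₗ[k] k),
    ∃ P : MvPolynomial (Fin (n + 1)) k, P ≠ 0 ∧ P.totalDegree ≤ B ∧ ∀ y ∈ Z, eval (fun a => φ a y) P = 0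

/-- The point `A l`. -/
noncomputable def point {k : Type} [Field k] [Algebra k ℂ] {m N : ℕ} (l : Fin N → ℂ) (A : Fin m → Fin N → k) :
    Fin m → ℂ :=
  fun i => ∑ j, algebraMap k ℂ (A i j) * l j

/-- Dimension and counting over `k`, with one bound `B` for all `V`, `W`, `l` and `S`. -/
def UniformBound (k : Type) [Field k] [Algebra k ℂ] (m N d δ ρ : ℕ) : Prop :=
  ∃ B : ℕ, ∀ V : Set (Fin m → ℂ), IsVariety d δ V →
    (∀ W : Submodule k ℂ, FiniteDimensional k W → Module.finrank k W = N → W ≤ LogForms k →
      DimensionAtMost W (d * (d + 1) + ρ * (N - (d + 1))) B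
        {y : Fin m → W | (fun i => (y i : ℂ)) ∈ V ∧ ∀ R : Submodule k (Fin m → k),
          ContainsTranslate k V (fun i => (y i : ℂ)) R → Module.finrank k R ≤ ρ}) ∧
    ∀ l : Fin N → ℂ, (∀ j, l j ∈ LogForms k) → LinearIndependent k l → ∀ S : Finset k, S.Nonempty →
      Set.ncard {A : Fin m → Fin N → k | (∀ i j, A i j ∈ S) ∧ point l A ∈ V ∧
        ∀ R : Submodule k (Fin m → k), ContainsTranslate k V (point l A) R → Module.finrank k R ≤ ρ} ≤
      B * S.card ^ (d * (d + 1) + ρ * (N - (d + 1)))

/-- The number of the integer matrices `A` with entries of absolute value at most `H` such that `A l ∈ V`. -/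
noncomputable def number {m N : ℕ} (V : Set (Fin m → ℂ)) (l : Fin N → ℂ) (H : ℕ) : ℕ :=
  Set.ncard {A : Fin m → Fin N → ℤ | (∀ i j, |A i j| ≤ H) ∧ point l (fun i j => (A i j : ℚ)) ∈ V}

/-- **Main result.** -/
theorem result (m N d δ ρ : ℕ) :
    UniformBound (algebraicClosure ℚ ℂ) m N d δ ρ ∧ UniformBound ℚ m N d δ ρ ∧
    ∀ V : Set (Fin m → ℂ), IsVariety d δ V → ∀ l : Fin N → ℂ, (∀ j, l j ∈ LogForms ℚ) → LinearIndependent ℚ l →
      IsGreatest {n : ℕ | ∃ (A : Fin m → Fin N → ℤ) (R : Submodule ℚ (Fin m → ℚ)), Module.finrank ℚ R = n ∧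
        ContainsTranslate ℚ V (point l (fun i j => (A i j : ℚ))) R} ρ →
      ∃ κ : ℕ, ∀ H : ℕ, κ ≤ H → H ^ (ρ * N) ≤ κ * number V l H ∧
        number V l H ≤ κ * H ^ (d * (d + 1) + ρ * (N - (d + 1))) := by
  have key : ∀ (k : Type) [Field k] [CharZero k] [Algebra k ℂ], Pool.Agent.W254.PA.Hyp (LogForms k) →
      UniformBound k m N d δ ρ := by
    intro k _ _ _ hL
    obtain ⟨B₁, h1⟩ := Pool.Agent.H443.VD.unifV_dim hL m N d δ ρ
    obtain ⟨B₂, h2⟩ := Pool.Agent.H443.VD.unifV_count hL m N d δ ρ
    refine ⟨B₁ + B₂, fun V hV => ⟨?_, ?_⟩⟩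
    · intro W hf hN hW φ
      obtain ⟨P, h3, h4, h5⟩ := h1 W hN hf hW V hV φ
      exact ⟨P, h3, h4.trans (Nat.le_add_right _ _), fun y hy => h5 y hy.1 hy.2⟩
    · intro l hl hli S hS
      exact (h2 l hl hli V hV S hS).trans (Nat.mul_le_mul_right _ (Nat.le_add_left _ _))
  have hQ : Pool.Agent.W254.PA.Hyp (LogForms ℚ) := Pool.Agent.Y787.AS.hypQ_complex
  refine ⟨key _ (Pool.Agent.Y787.HypC.hyp (Lt := Pool.Agent.H301R2.SSE.Lt)), key ℚ hQ, ?_⟩
  intro V hV l hl hli hρ
  obtain ⟨⟨A, R, hR1, hR2⟩, hmax⟩ := hρ
  obtain ⟨F, hF1, hF2, hF3⟩ := Pool.Agent.H443.VD.IsVar.fin hV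
  have hpt : ∀ A : Fin m → Fin N → ℤ, point l (fun i j => (A i j : ℚ)) = fun i => ∑ j, (A i j : ℂ) * l j := by
    intro A
    funext i
    simp [point]
  have hnum : ∀ H, number V l H = Pool.Agent.Y787.AS.numV F l H := by
    intro H
    unfold number Pool.Agent.Y787.AS.numV
    congr 1
    ext A
    simp only [Set.mem_ofPred_eq, hpt, hF3]
  obtain ⟨κ₁, h1, h2⟩ := Pool.Agent.Y787.AS.var_lower l F A R (by
    rw [← hpt]
    exact (Pool.Agent.H443.VD.trans_iff hF3 _ _).1 hR2)
  obtain ⟨κ₂, h3⟩ := Pool.Agent.H443.VD.var_upper hQ l hl hli F (ρ := ρ)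
    (fun e => by
      obtain ⟨P, hP1, _, hP2⟩ := hF2 e
      exact ⟨P, hP1, hP2⟩)
    (fun A' R' h => hmax ⟨A', R', rfl, by
      rw [hpt]
      exact (Pool.Agent.H443.VD.trans_iff hF3 _ _).2 h⟩)
  refine ⟨κ₁ + κ₂, fun H hH => ⟨?_, ?_⟩⟩
  · have h4 := h2 H (by omega)
    rw [hR1] at h4
    rw [hnum]
    exact h4.trans (Nat.mul_le_mul_right _ (by omega))
  · rw [hnum]
    exact (h3 H (by omega)).trans (Nat.mul_le_mul_right _ (by omega))

end Pool.Agent.Results.MP_60829e_nt.VarietiesOfGivenDimension
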